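import Pool.Agent.H797Z.CorrDefs
import Pool.Agent.H797Z.CorrMain

set_option autoImplicit false

namespace Pool.Agent.Results.MP_4840d7_an.LocalMultiplier

open Pool.Agent.H797Z

universe u v w

/-- Every bounded local left multiplier on the tensor algebra of a C*-correspondence is a left
multiplier. -/
theorem result {A : Type u} {X : Type v} {B : Type w} [NonUnitalCStarAlgebra A]
    [NormedAddCommGroup X] [NormedSpace ℂ X] [CompleteSpace X] [NonUnitalCStarAlgebra B]
    (C : Corr A X) (π : A →⋆ₙₐ[ℂ] B) (t : X →ₗ[ℂ] B) (hU : IsUniversalToeplitzRep C π t)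
    (S : tensorAlgebra π t →L[ℂ] tensorAlgebra π t)
    (hS : ∀ a : tensorAlgebra π t, ∃ x : tensorAlgebra π t, S a = x * a) :
    ∀ a b : tensorAlgebra π t, S (a * b) = S a * b :=
  local_multiplier C π t hU S hS

end Pool.Agent.Results.MP_4840d7_an.LocalMultiplier
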